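import Pool.Agent.Q148.HF.Stmts

/-!
# Assembly for MP_85483e_gt
-/

set_option autoImplicit false

namespace Pool.Agent.Q148.HF

open TopologicalSpace Metric Set Filter Topology

section

variable {M : Set E}

/-- the image in the plane -/
noncomputable def up (A : NonemptyCompacts M) : K where
  carrier := (Subtype.val : M → E) '' (A : Set M)
  isCompact' := A.isCompact.image continuous_subtype_val
  nonempty' := A.nonempty.image _

theorem up_sub (A : NonemptyCompacts M) : (up A : Set E) ⊆ M := by
  rintro _ ⟨x, _, rfl⟩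
  exact x.2

/-- back to `M` -/
noncomputable def dn (B : K) (hB : (B : Set E) ⊆ M) : NonemptyCompacts M where
  carrier := (Subtype.val : M → E) ⁻¹' (B : Set E)
  isCompact' := by
    rw [Topology.IsInducing.subtypeVal.isCompact_iff, Subtype.image_preimage_coe,
      inter_eq_right.2 hB]
    exact B.isCompact
  nonempty' := by
    obtain ⟨x, hx⟩ := B.nonempty
    exact ⟨⟨x, hB hx⟩, hx⟩

theorem image_dn (B : K) (hB : (B : Set E) ⊆ M) :
    (Subtype.val : M → E) '' (dn B hB : Set M) = (B : Set E) := by
  change (Subtype.val : M → E) '' ((Subtype.val : M → E) ⁻¹' (B : Set E)) = _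
  rw [Subtype.image_preimage_coe, inter_eq_right.2 hB]

theorem dist_dn (B C : K) (hB : (B : Set E) ⊆ M) (hC : (C : Set E) ⊆ M) :
    dist (dn B hB) (dn C hC) = dist B C := by
  rw [NonemptyCompacts.dist_eq, NonemptyCompacts.dist_eq,
    ← hausdorffDist_image (isometry_subtype_coe (s := M)), image_dn, image_dn]

theorem dist_up (A B : NonemptyCompacts M) : dist (up A) (up B) = dist A B := by
  rw [NonemptyCompacts.dist_eq, NonemptyCompacts.dist_eq]
  exact hausdorffDist_image (isometry_subtype_coe (s := M))

theorem continuous_up : Continuous (up : NonemptyCompacts M → K) :=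
  (Isometry.of_dist_eq dist_up).continuous

end

theorem core (hAtt : TaskAtt) (hSupG : TaskSupG) (hAB : TaskAB) (hZC : TaskZC) (hDC : TaskDC)
    (hSegC : TaskSegC) (hCnC : TaskCnC) (hSupC : TaskSupC) (hPos : TaskPos) (hNear : TaskNear)
    (hFar : TaskFar) (hZero : TaskZero) (hSub : TaskSub) (hConn : TaskConn) (hFixA : TaskFixA)
    (hClopen : TaskClopen) (hBasis : TaskBasis) (hFixB : TaskFixB) (Z : Set ℝ) (hZ : ZOk Z) :
    ∃ r : NonemptyCompacts (fan Z) → NonemptyCompacts (fan Z), Continuous r ∧
      (∀ A, IsConnected (r A : Set (fan Z))) ∧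
        ∀ A : NonemptyCompacts (fan Z), IsConnected (A : Set (fan Z)) → r A = A := by
  have hsub := hSub hAtt hSupC Z hZ
  refine ⟨fun A => dn (rr (up A)) (hsub _ (up_sub A)), ?_, ?_, ?_⟩
  · -- continuity
    have hc : ContinuousOn rr {B : K | (B : Set E) ⊆ fan Z} := by
      intro A hA
      rcases le_or_gt (aa A) 0 with h | h
      · exact hZero hAB hCnC hAtt hSupC hNear hFar Z hZ A hA h
      · exact (hPos hAB hZC hDC hSupG hSegC hCnC hSupC hAtt A h).continuousWithinAt
    have hc2 : Continuous fun A : NonemptyCompacts (fan Z) => rr (up A) :=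
      hc.comp_continuous continuous_up fun A => up_sub A
    rw [Metric.continuous_iff] at hc2 ⊢
    intro A ε hε
    obtain ⟨δ, hδ, h⟩ := hc2 A ε hε
    refine ⟨δ, hδ, fun B hB => ?_⟩
    rw [dist_dn]
    exact h B hB
  · intro A
    have h := hConn hSupC (up A)
    have e := image_dn (rr (up A)) (hsub _ (up_sub A))
    rw [← e] at h
    exact ⟨Set.image_nonempty.1 h.1,
      (Topology.IsInducing.subtypeVal.isPreconnected_image).1 h.2⟩
  · intro A hA
    have hup : IsConnected (up A : Set E) :=
      hA.image _ continuous_subtype_val.continuousOn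
    have hfix : rr (up A) = up A := by
      rcases le_or_gt (aa (up A)) 0 with h | h
      · exact hFixB hAtt hClopen hBasis Z hZ _ (up_sub A) hup h
      · exact hFixA hAtt Z hZ _ (up_sub A) hup h
    apply NonemptyCompacts.ext
    have e := image_dn (rr (up A)) (hsub _ (up_sub A))
    apply Subtype.val_injective.image_injective
    rw [e, hfix]
    rfl

end Pool.Agent.Q148.HF
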