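import Mathlib

/-!
# Blueprint for MP_85483e_gt (STANDARD): `C(M)` is a retract of `2^M` for the harmonic fan `M`

`Z ⊆ [0,1]` compact, totally disconnected; `M = fan Z = {(z s, s) : z ∈ Z, 0 ≤ s ≤ 1}`, the cone over
`Z` with vertex `v = (0,0)`. For a nonempty compact `A ⊆ M` let `a = aa A`, `b = bb A` be the least
and the largest second coordinate, `z* = zz A` the largest slope `p.1 / p.2` (for `v ∉ A`), and
`D = DD A = max (z* p.2 - p.1)` the largest distance of a point of `A` to its projection to the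
leg `z*`. The retraction `rr`:
* `a = 0` (`v ∈ A`): `rr A = cn 1 A = {τ x : 0 ≤ τ ≤ 1, x ∈ A}`;
* `0 < a`, `D ≤ a`: `rr A` = the segment of the leg `z*` with `s` in `[a - D, b]`;
* `0 < a < D`, `l = D / a`: `rr A` = the segment of the leg `z*` with `s` in `[0, (1 - η) b]` together
  with `cn θ A = {τ x : 0 ≤ τ ≤ θ, x ∈ A}`, `θ = min 1 (l - 1)`, `η = max 0 (min 1 (l - 2))`.
For `a > 0` everything is continuous; `hausdorffDist (rr A) (cn 1 A) ≤ 6 a` gives continuity at the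
sets with `a = 0`. Each task may use all other tasks as hypotheses.
-/

set_option autoImplicit false

namespace Pool.Agent.Q148.HF

open TopologicalSpace Metric Set Filter Topology

/-- the plane (maximum metric) -/
abbrev E : Type := ℝ × ℝ

/-- nonempty compact subsets of the plane with the Hausdorff metric -/
abbrev K : Type := NonemptyCompacts E

/-- the point with parameter `σ` on the leg `w` -/
def P (w σ : ℝ) : E := (w * σ, σ)

/-- the cone over `Z` -/
def fan (Z : Set ℝ) : Set E := {p | ∃ z ∈ Z, ∃ s ∈ Icc (0 : ℝ) 1, p = P z s}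

/-- the hypotheses on `Z` -/
structure ZOk (Z : Set ℝ) : Prop where
  cpt : IsCompact Z
  ne : Z.Nonempty
  sub : Z ⊆ Icc 0 1
  td : IsTotallyDisconnected Z

noncomputable def aa (A : K) : ℝ := sInf (Prod.snd '' (A : Set E))
noncomputable def bb (A : K) : ℝ := sSup (Prod.snd '' (A : Set E))
noncomputable def zz (A : K) : ℝ := sSup ((fun p : E => p.1 / p.2) '' (A : Set E))
noncomputable def DD (A : K) : ℝ := sSup ((fun p : E => zz A * p.2 - p.1) '' (A : Set E))

/-- the segment of the leg `w` between the parameters `p` and `q` -/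
noncomputable def seg (w p q : ℝ) : K where
  carrier := (fun t : ℝ => P w (p + t * (q - p))) '' Icc 0 1
  isCompact' := isCompact_Icc.image (by unfold P; fun_prop)
  nonempty' := (nonempty_Icc.2 zero_le_one).image _

/-- `{τ x : 0 ≤ τ ≤ max θ 0, x ∈ A}` -/
noncomputable def cn (θ : ℝ) (A : K) : K where
  carrier := (fun q : ℝ × E => (q.1 * max θ 0) • q.2) '' (Icc (0 : ℝ) 1 ×ˢ (A : Set E))
  isCompact' := (isCompact_Icc.prod A.isCompact).image (by fun_prop)
  nonempty' := ((nonempty_Icc.2 zero_le_one).prod A.nonempty).image _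

/-- the retraction -/
noncomputable def rr (A : K) : K :=
  if aa A ≤ 0 then cn 1 A
  else if DD A ≤ aa A then seg (zz A) (aa A - DD A) (bb A)
  else seg (zz A) 0 ((1 - max 0 (min 1 (DD A / aa A - 2))) * bb A) ⊔ cn (min 1 (DD A / aa A - 1)) A

/-- TASK SupG. The maximum of a continuous function over a compact set depends continuously on the
set and a parameter (uniform continuity near a compact set; e.g. with sequences). -/
def TaskSupG : Prop := ∀ h : ℝ × E → ℝ, Continuous h →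
  Continuous (fun q : ℝ × K => sSup ((fun p => h (q.1, p)) '' (q.2 : Set E)))

/-- TASK AB. from SupG (`h (w, p) = ± p.2`; `Real.sInf_def`) or directly (1-Lipschitz) -/
def TaskAB : Prop := TaskSupG → Continuous aa ∧ Continuous bb

/-- TASK ZC. near `A` all sets lie in `{p | c ≤ p.2}`, `c > 0`, where `p.1 / p.2 = p.1 / max c p.2`:
apply SupG to `h (w, p) = p.1 / max c p.2` -/
def TaskZC : Prop := TaskSupG → TaskAB → ∀ A : K, (∀ p ∈ A, 0 < p.2) → ContinuousAt zz A

/-- TASK DC. SupG for `h (w, p) = w * p.2 - p.1`, composed with `zz` -/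
def TaskDC : Prop := TaskSupG → TaskZC → TaskAB → ∀ A : K, (∀ p ∈ A, 0 < p.2) → ContinuousAt DD A

/-- TASK Att. extrema are attained -/
def TaskAtt : Prop := ∀ A : K,
  (∃ p ∈ A, p.2 = aa A) ∧ (∀ p ∈ A, aa A ≤ p.2) ∧ (∃ p ∈ A, p.2 = bb A) ∧ (∀ p ∈ A, p.2 ≤ bb A) ∧
  ((∀ p ∈ A, 0 < p.2) → (∃ p ∈ A, p.1 / p.2 = zz A) ∧ ∀ p ∈ A, p.1 / p.2 ≤ zz A) ∧
  (∃ p ∈ A, zz A * p.2 - p.1 = DD A) ∧ ∀ p ∈ A, zz A * p.2 - p.1 ≤ DD A

/-- TASK SegC -/
def TaskSegC : Prop := Continuous (fun q : ℝ × ℝ × ℝ => seg q.1 q.2.1 q.2.2)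

/-- TASK CnC. e.g. at `(θ, A)`: points of `A` and nearby sets are bounded by `R`;
`dist (s x) (t y) ≤ |s - t| R + |t| dist x y` and `hausdorffDist_le_of_mem_dist` -/
def TaskCnC : Prop := Continuous (fun q : ℝ × K => cn q.1 q.2)

/-- TASK SupC. `hausdorffDist` of unions; also the carrier of `⊔` is the union -/
def TaskSupC : Prop := Continuous (fun q : K × K => q.1 ⊔ q.2) ∧
  ∀ A B : K, ((A ⊔ B : K) : Set E) = (A : Set E) ∪ (B : Set E)

/-- TASK Pos. continuity where `0 < aa A`. Near `A` the first case of `rr` does not occur. If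
`DD A < aa A` or `aa A < DD A` only one case occurs near `A`; if `DD A = aa A` both formulas have
the limit `seg (zz A) 0 (bb A)` (`cn 0 A = {0}`, which is a subset). -/
def TaskPos : Prop := TaskAB → TaskZC → TaskDC → TaskSupG → TaskSegC → TaskCnC → TaskSupC → TaskAtt →
  ∀ A : K, 0 < aa A → ContinuousAt rr A

/-- TASK Near. if `0 < aa A` and `DD A ≤ 3 aa A`: all points `τ x` of `cn 1 A` are at distance `≤ 3 a` of
`P z* (τ x.2)`, and `P z* σ`, `0 ≤ σ ≤ b` (`b = x.2`, `x ∈ A`) of `(σ / b) x`; on a leg distances are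
`|σ - σ'|` as `z* ≤ 1`. -/
def TaskNear : Prop := TaskAtt → TaskSupC → ∀ Z, ZOk Z → ∀ A : K, (A : Set E) ⊆ fan Z → 0 < aa A →
  DD A ≤ 3 * aa A → hausdorffDist (rr A : Set E) (cn 1 A : Set E) ≤ 6 * aa A

/-- TASK Far. `θ = η = 1` -/
def TaskFar : Prop := TaskSupC → ∀ A : K, 0 < aa A → 3 * aa A < DD A → rr A = cn 1 A

/-- TASK Zero. continuity within the subsets of the fan at sets with `aa A ≤ 0` -/
def TaskZero : Prop := TaskAB → TaskCnC → TaskAtt → TaskSupC → TaskNear → TaskFar → ∀ Z, ZOk Z →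
  ∀ A : K, (A : Set E) ⊆ fan Z → aa A ≤ 0 →
    ContinuousWithinAt rr {B : K | (B : Set E) ⊆ fan Z} A

/-- TASK Sub -/
def TaskSub : Prop := TaskAtt → TaskSupC → ∀ Z, ZOk Z → ∀ A : K, (A : Set E) ⊆ fan Z →
  (rr A : Set E) ⊆ fan Z

/-- TASK Conn. segments are images of `Icc 0 1`; `cn θ A` is a union of segments through `0` -/
def TaskConn : Prop := TaskSupC → ∀ A : K, IsConnected (rr A : Set E)

/-- TASK FixA. `p ↦ p.1 / p.2` maps `A` continuously into `Z`, so it is constant; `DD A = 0`; `A` is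
the segment because `snd '' A` is connected -/
def TaskFixA : Prop := TaskAtt → ∀ Z, ZOk Z → ∀ A : K, (A : Set E) ⊆ fan Z → IsConnected (A : Set E) →
  0 < aa A → rr A = A

/-- TASK Clopen. the function `p ↦ p.2` on the legs in `V`, `0` on the others, is continuous on the fan -/
def TaskClopen : Prop := ∀ Z, ZOk Z → ∀ V : Set ℝ, IsClosed V → IsOpen V ∨ (∃ U : Set ℝ, IsOpen U ∧
  V ∩ Z = U ∩ Z) → ∃ ρ : E → ℝ, ContinuousOn ρ (fan Z) ∧ (∀ z ∈ Z, z ∈ V → ∀ s, 0 ≤ s → s ≤ 1 → ρ (P z s) = s) ∧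
    ∀ z ∈ Z, z ∉ V → ∀ s, 0 ≤ s → s ≤ 1 → ρ (P z s) = 0

/-- TASK Basis. clopen neighbourhoods in `Z` (compact, totally disconnected:
`compact_exists_isClopen_in_isOpen` for the subtype `Z`), as relatively clopen sets given by a closed
and an open subset of the line -/
def TaskBasis : Prop := ∀ Z, ZOk Z → ∀ z ∈ Z, ∀ δ > 0, ∃ V U : Set ℝ, IsClosed V ∧ IsOpen U ∧ V ∩ Z = U ∩ Z ∧
  z ∈ V ∧ ∀ w ∈ V ∩ Z, |w - z| < δ

/-- TASK FixB. `v ∈ A`. For `x = P z s ∈ A`, `0 < τ < 1`, and `V` as in Basis, `ρ '' A` (Clopen) is an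
interval containing `0` and `s`, so there is `y = P w (τ s) ∈ A` with `|w - z| < δ`; `A` is closed, so
`τ x ∈ A` -/
def TaskFixB : Prop := TaskAtt → TaskClopen → TaskBasis → ∀ Z, ZOk Z → ∀ A : K, (A : Set E) ⊆ fan Z →
  IsConnected (A : Set E) → aa A ≤ 0 → rr A = A

/-- the harmonic sequence with its limit -/
def Z0 : Set ℝ := {x | x = 0 ∨ ∃ n : ℕ, x = 1 / ((n : ℝ) + 1)}

/-- TASK Z0. -/
def TaskZ0 : Prop := ZOk Z0 ∧ ∀ x : ℝ, AccPt x (𝓟 Z0) ↔ x = 0

/-- TASK FanC. -/
def TaskFanC : Prop := ∀ Z, ZOk Z → IsCompact (fan Z) ∧ IsConnected (fan Z)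

/-- TASK NLC. no connected neighbourhood of `(0, 1) = P 0 1` inside `{p | 1/2 < p.2}` -/
def TaskNLC : Prop := ¬ LocallyConnectedSpace (fan Z0)

/-- TASK Cone. `fan Z` is the cone over `Z` -/
def TaskCone : Prop := ∀ Z, ZOk Z → ∃ f : Z × Icc (0 : ℝ) 1 → fan Z, Continuous f ∧ Function.Surjective f ∧
  ∀ p q, f p = f q ↔ p = q ∨ ((p.2 : ℝ) = 1 ∧ (q.2 : ℝ) = 1)

end Pool.Agent.Q148.HF
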