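import Pool.Agent.Q148.HF.Stmts

set_option autoImplicit false

namespace Pool.Agent.Q148.HF.TAB

open TopologicalSpace Metric Set Filter Topology
open Pool.Agent.Q148.HF

theorem main : Pool.Agent.Q148.HF.TaskAB := by
  intro hS
  constructor
  · have h1 := hS (fun q => -q.2.2) (by fun_prop)
    have h2 : Continuous fun A : K => sSup ((fun p : E => -p.2) '' (A : Set E)) :=
      h1.comp (Continuous.prodMk continuous_const continuous_id : Continuous fun A : K => ((0 : ℝ), A))
    have h3 : aa = fun A : K => -sSup ((fun p : E => -p.2) '' (A : Set E)) := by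
      funext A
      unfold aa
      rw [Real.sInf_def]
      congr 2
      ext x
      simp only [Set.mem_neg, Set.mem_image]
      constructor
      · rintro ⟨p, hp, h⟩
        exact ⟨p, hp, by rw [h, neg_neg]⟩
      · rintro ⟨p, hp, h⟩
        exact ⟨p, hp, by rw [← h, neg_neg]⟩
    rw [h3]
    exact h2.neg
  · have h1 := hS (fun q => q.2.2) (by fun_prop)
    exact h1.comp (Continuous.prodMk continuous_const continuous_id :
      Continuous fun A : K => ((0 : ℝ), A))

end Pool.Agent.Q148.HF.TAB
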