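import Pool.Agent.Q148.HF.Stmts

set_option autoImplicit false

namespace Pool.Agent.Q148.HF.TAtt

open TopologicalSpace Metric Set Filter Topology
open Pool.Agent.Q148.HF

theorem sup_att (S : Set E) (hS : IsCompact S) (hne : S.Nonempty) (f : E → ℝ)
    (hf : ContinuousOn f S) :
    (∃ p ∈ S, f p = sSup (f '' S)) ∧ ∀ p ∈ S, f p ≤ sSup (f '' S) := by
  obtain ⟨x, hx, hxs⟩ := hS.exists_sSup_image_eq hne hf
  exact ⟨⟨x, hx, hxs.symm⟩, fun p hp => le_csSup (hS.bddAbove_image hf) (mem_image_of_mem f hp)⟩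

theorem inf_att (S : Set E) (hS : IsCompact S) (hne : S.Nonempty) (f : E → ℝ)
    (hf : ContinuousOn f S) :
    (∃ p ∈ S, f p = sInf (f '' S)) ∧ ∀ p ∈ S, sInf (f '' S) ≤ f p := by
  obtain ⟨x, hx, hxs⟩ := hS.exists_sInf_image_eq hne hf
  exact ⟨⟨x, hx, hxs.symm⟩, fun p hp => csInf_le (hS.bddBelow_image hf) (mem_image_of_mem f hp)⟩

theorem main : Pool.Agent.Q148.HF.TaskAtt := by
  intro A
  have hc : IsCompact (A : Set E) := A.isCompact
  have hn : (A : Set E).Nonempty := A.nonempty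
  have h1 := inf_att A hc hn Prod.snd continuous_snd.continuousOn
  have h2 := sup_att A hc hn Prod.snd continuous_snd.continuousOn
  have h3 := sup_att A hc hn (fun p : E => zz A * p.2 - p.1)
    ((continuous_const.mul continuous_snd).sub continuous_fst).continuousOn
  refine ⟨h1.1, h1.2, h2.1, h2.2, ?_, h3.1, h3.2⟩
  intro hpos
  exact sup_att A hc hn (fun p : E => p.1 / p.2)
    (continuous_fst.continuousOn.div continuous_snd.continuousOn fun p hp => (hpos p hp).ne')

end Pool.Agent.Q148.HF.TAtt
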