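import Pool.Agent.Q148.HF.Stmts

set_option autoImplicit false

namespace Pool.Agent.Q148.HF.TBasis

open TopologicalSpace Metric Set Filter Topology

theorem main : Pool.Agent.Q148.HF.TaskBasis := by
  intro Z hZ z hz δ hδ
  have hc : CompactSpace Z := isCompact_iff_compactSpace.1 hZ.cpt
  have ht : TotallyDisconnectedSpace Z := totallyDisconnectedSpace_subtype_iff.2 hZ.td
  have ho : IsOpen {w : Z | |(w : ℝ) - z| < δ} :=
    isOpen_lt (by fun_prop) continuous_const
  obtain ⟨W, hW, hzW, hWs⟩ := compact_exists_isClopen_in_isOpen ho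
    (x := (⟨z, hz⟩ : Z)) (by simpa using hδ)
  obtain ⟨U, hU, hUW⟩ := isOpen_induced_iff.1 hW.isOpen
  refine ⟨Subtype.val '' W, U, ?_, hU, ?_, ?_, ?_⟩
  · exact hZ.cpt.isClosed.isClosedEmbedding_subtypeVal.isClosedMap _ hW.isClosed
  · rw [← hUW, Subtype.image_preimage_coe]
    ext x
    simp only [mem_inter_iff]
    tauto
  · exact ⟨⟨z, hz⟩, hzW, rfl⟩
  · rintro w ⟨⟨w', hw', rfl⟩, -⟩
    exact hWs hw'

end Pool.Agent.Q148.HF.TBasis
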