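import Pool.Agent.Q148.HF.Stmts

set_option autoImplicit false

namespace Pool.Agent.Q148.HF.TClopen

open TopologicalSpace Metric Set Filter Topology Pool.Agent.Q148.HF

private theorem quot (w t : ℝ) (ht : 0 < t) : (P w t).1 / (P w t).2 = w := by
  unfold P
  field_simp

theorem main : Pool.Agent.Q148.HF.TaskClopen := by
  intro Z hZ V hVc hV
  obtain ⟨U, hUo, hVU⟩ : ∃ U : Set ℝ, IsOpen U ∧ V ∩ Z = U ∩ Z := by
    rcases hV with h | h
    · exact ⟨V, h, rfl⟩
    · exact h
  classical
  refine ⟨fun p => if p.1 / p.2 ∈ V then p.2 else 0, ?_, ?_, ?_⟩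
  · intro p hp
    obtain ⟨z, hz, s, hs, rfl⟩ := hp
    rcases hs.1.eq_or_lt with h0 | h0
    · subst h0
      have hval : (if (P z 0).1 / (P z 0).2 ∈ V then (P z 0).2 else 0 : ℝ) = 0 := by
        simp [P]
      rw [ContinuousWithinAt, hval]
      have hs : Tendsto (fun q : E => |q.2|) (𝓝[fan Z] (P z 0)) (𝓝 0) := by
        have h1 : Continuous fun q : E => |q.2| := by fun_prop
        have h2 := h1.continuousWithinAt (s := fan Z) (x := P z 0)
        simpa [ContinuousWithinAt, P] using h2
      refine squeeze_zero_norm (fun q => ?_) hs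
      split_ifs <;> simp
    · have hquot : ContinuousAt (fun q : E => q.1 / q.2) (P z s) :=
        ContinuousAt.div continuousAt_fst continuousAt_snd h0.ne'
      have hval : (P z s).1 / (P z s).2 = z := quot z s h0
      by_cases hzV : z ∈ V
      · have hzU : z ∈ U := by
          have : z ∈ U ∩ Z := hVU ▸ ⟨hzV, hz⟩
          exact this.1
        have h1 : ∀ᶠ q in 𝓝 (P z s), (fun q : E => q.1 / q.2) q ∈ U :=
          hquot.eventually_mem (by
            show U ∈ 𝓝 ((P z s).1 / (P z s).2)
            rw [hval]
            exact hUo.mem_nhds hzU)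
        have h2 : ∀ᶠ q in 𝓝 (P z s), 0 < q.2 :=
          (continuousAt_snd (p := P z s)).eventually (lt_mem_nhds h0)
        have hev : ∀ᶠ q in 𝓝[fan Z] (P z s), q.1 / q.2 ∈ V := by
          filter_upwards [nhdsWithin_le_nhds h1, nhdsWithin_le_nhds h2, self_mem_nhdsWithin] with
            q hq1 hq2 hq3
          obtain ⟨w, hw, t, ht, rfl⟩ := hq3
          have ht0 : 0 < t := hq2
          have hq1' : (P w t).1 / (P w t).2 ∈ U := hq1
          rw [quot w t ht0] at hq1' ⊢
          have : w ∈ V ∩ Z := hVU.symm ▸ ⟨hq1', hw⟩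
          exact this.1
        refine ContinuousWithinAt.congr_of_eventuallyEq (f := fun q : E => q.2)
          continuous_snd.continuousWithinAt ?_ ?_
        · filter_upwards [hev] with q hq
          simp [hq]
        · simp [hval, hzV]
      · have h1 : ∀ᶠ q in 𝓝 (P z s), (fun q : E => q.1 / q.2) q ∈ Vᶜ :=
          hquot.eventually_mem (by
            show Vᶜ ∈ 𝓝 ((P z s).1 / (P z s).2)
            rw [hval]
            exact hVc.isOpen_compl.mem_nhds hzV)
        refine ContinuousWithinAt.congr_of_eventuallyEq (f := fun _ : E => (0 : ℝ))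
          continuousWithinAt_const ?_ ?_
        · filter_upwards [nhdsWithin_le_nhds h1] with q hq
          have hq' : q.1 / q.2 ∉ V := hq
          simp [hq']
        · simp [hval, hzV]
  · intro z _ hzV s hs0 _
    rcases hs0.eq_or_lt with h0 | h0
    · subst h0
      simp [P]
    · simp only [quot z s h0, hzV, if_true]
      rfl
  · intro z _ hzV s hs0 _
    rcases hs0.eq_or_lt with h0 | h0
    · subst h0
      simp [P]
    · simp only [quot z s h0, hzV, if_false]

end Pool.Agent.Q148.HF.TClopen
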