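import Mathlib
import Pool.Agent.Q148.HF.Stmts

set_option autoImplicit false

open TopologicalSpace Metric Set Filter Topology Pool.Agent.Q148.HF

namespace Pool.Agent.Q148.HF.TCnC

lemma est (τ m m₀ δ R : ℝ) (x x₀ : E) (hτ : τ ∈ Icc (0 : ℝ) 1) (hm : |m - m₀| ≤ δ) (hm₀ : 0 ≤ m₀)
    (hx : dist x x₀ ≤ δ) (hR : ‖x₀‖ ≤ R) (hδ : 0 ≤ δ) (hδ1 : δ ≤ 1) :
    dist ((τ * m) • x) ((τ * m₀) • x₀) ≤ δ * (R + 1 + m₀) := by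
  rw [dist_eq_norm] at hx ⊢
  have h1 : (τ * m) • x - (τ * m₀) • x₀ = (τ * (m - m₀)) • x + (τ * m₀) • (x - x₀) := by module
  rw [h1]
  have hxR : ‖x‖ ≤ R + 1 := by
    have h2 : ‖x₀ + (x - x₀)‖ ≤ ‖x₀‖ + ‖x - x₀‖ := norm_add_le _ _
    rw [add_sub_cancel] at h2
    linarith
  have e1 : |τ * (m - m₀)| ≤ δ := by
    rw [abs_mul, abs_of_nonneg hτ.1]
    nlinarith [hτ.2, abs_nonneg (m - m₀)]
  have e2 : |τ * m₀| ≤ m₀ := by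
    rw [abs_of_nonneg (mul_nonneg hτ.1 hm₀)]
    nlinarith [hτ.2]
  calc ‖(τ * (m - m₀)) • x + (τ * m₀) • (x - x₀)‖
      ≤ ‖(τ * (m - m₀)) • x‖ + ‖(τ * m₀) • (x - x₀)‖ := norm_add_le _ _
    _ = |τ * (m - m₀)| * ‖x‖ + |τ * m₀| * ‖x - x₀‖ := by
        rw [norm_smul, norm_smul, Real.norm_eq_abs, Real.norm_eq_abs]
    _ ≤ δ * (R + 1) + m₀ * δ := by
        gcongr
    _ = δ * (R + 1 + m₀) := by ring

theorem main : Pool.Agent.Q148.HF.TaskCnC := by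
  unfold TaskCnC
  rw [Metric.continuous_iff]
  rintro ⟨θ₀, A₀⟩ ε hε
  obtain ⟨R, hR⟩ := A₀.isCompact.isBounded.exists_norm_le
  have hR0 : 0 ≤ R := by
    obtain ⟨x, hx⟩ := A₀.nonempty
    exact (norm_nonneg x).trans (hR x hx)
  have hm₀ : 0 ≤ max θ₀ 0 := le_max_right _ _
  have hpos : 0 < 2 * (R + 1 + max θ₀ 0) := by positivity
  obtain ⟨δ, hδdef⟩ : ∃ δ, δ = min 1 (ε / (2 * (R + 1 + max θ₀ 0))) := ⟨_, rfl⟩
  have hδ0 : 0 < δ := by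
    rw [hδdef]
    positivity
  have hδ1 : δ ≤ 1 := by
    rw [hδdef]
    exact min_le_left _ _
  have hδ2 : δ * (R + 1 + max θ₀ 0) ≤ ε / 2 := by
    have h : δ ≤ ε / (2 * (R + 1 + max θ₀ 0)) := by
      rw [hδdef]
      exact min_le_right _ _
    rw [le_div_iff₀ hpos] at h
    linarith
  refine ⟨δ, hδ0, ?_⟩
  rintro ⟨θ, A⟩ hq
  rw [Prod.dist_eq, max_lt_iff] at hq
  have hm : |max θ 0 - max θ₀ 0| ≤ δ := by
    have h1 := abs_max_sub_max_le_abs θ θ₀ 0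
    have h2 : |θ - θ₀| < δ := by simpa [Real.dist_eq] using hq.1
    exact h1.trans h2.le
  have hfin : hausdorffEDist (A : Set E) A₀ ≠ ⊤ :=
    hausdorffEDist_ne_top_of_nonempty_of_bounded A.nonempty A₀.nonempty A.isCompact.isBounded
      A₀.isCompact.isBounded
  have hd : hausdorffDist (A : Set E) A₀ < δ := by
    have h := hq.2
    rwa [NonemptyCompacts.dist_eq] at h
  rw [NonemptyCompacts.dist_eq]
  refine lt_of_le_of_lt (hausdorffDist_le_of_mem_dist (r := δ * (R + 1 + max θ₀ 0)) (by positivity)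
    ?_ ?_) (by linarith)
  · rintro _ ⟨⟨τ, x⟩, ⟨hτ, hx⟩, rfl⟩
    obtain ⟨x₀, hx₀, hdx⟩ := exists_dist_lt_of_hausdorffDist_lt hx hd hfin
    exact ⟨(τ * max θ₀ 0) • x₀, ⟨⟨τ, x₀⟩, ⟨hτ, hx₀⟩, rfl⟩,
      est τ (max θ 0) (max θ₀ 0) δ R x x₀ hτ hm hm₀ hdx.le (hR x₀ hx₀) hδ0.le hδ1⟩
  · rintro _ ⟨⟨τ, x₀⟩, ⟨hτ, hx₀⟩, rfl⟩
    obtain ⟨x, hx, hdx⟩ := exists_dist_lt_of_hausdorffDist_lt' hx₀ hd hfin
    refine ⟨(τ * max θ 0) • x, ⟨⟨τ, x⟩, ⟨hτ, hx⟩, rfl⟩, ?_⟩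
    rw [dist_comm]
    exact est τ (max θ 0) (max θ₀ 0) δ R x x₀ hτ hm hm₀ hdx.le (hR x₀ hx₀) hδ0.le hδ1

end Pool.Agent.Q148.HF.TCnC
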