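import Pool.Agent.Q148.HF.Stmts

/-!
# The fan over `Z` is the cone over `Z`
-/

set_option autoImplicit false

namespace Pool.Agent.Q148.HF.TCone

open Pool.Agent.Q148.HF Set

theorem main : TaskCone := by
  intro Z hZ
  refine ⟨fun q => ⟨P (q.1 : ℝ) (1 - (q.2 : ℝ)), (q.1 : ℝ), q.1.2, 1 - (q.2 : ℝ),
    ⟨by linarith [q.2.2.2], by linarith [q.2.2.1]⟩, rfl⟩, ?_, ?_, ?_⟩
  · refine Continuous.subtype_mk ?_ _
    unfold P
    fun_prop
  · rintro ⟨p, z, hz, s, hs, rfl⟩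
    refine ⟨(⟨z, hz⟩, ⟨1 - s, by linarith [hs.2], by linarith [hs.1]⟩), ?_⟩
    apply Subtype.ext
    simp [P]
  · rintro ⟨⟨z, hz⟩, ⟨t, ht⟩⟩ ⟨⟨w, hw⟩, ⟨u, hu⟩⟩
    simp only [Subtype.mk.injEq, P, Prod.mk.injEq]
    constructor
    · rintro ⟨h1, h2⟩
      have htu : t = u := by linarith
      subst htu
      by_cases h : t = 1
      · exact Or.inr ⟨h, h⟩
      · left
        have h3 : (1 - t) ≠ 0 := sub_ne_zero.2 (Ne.symm h)
        exact ⟨mul_right_cancel₀ h3 h1, rfl⟩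
    · rintro (⟨h1, h2⟩ | ⟨h1, h2⟩)
      · subst h1; subst h2; exact ⟨rfl, rfl⟩
      · subst h1; subst h2; simp

end Pool.Agent.Q148.HF.TCone
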