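import Pool.Agent.Q148.HF.Stmts

set_option autoImplicit false

namespace Pool.Agent.Q148.HF.TConn

open TopologicalSpace Metric Set Filter Topology

private lemma seg_conn (w p q : ℝ) : IsConnected (seg w p q : Set E) := by
  show IsConnected ((fun t : ℝ => P w (p + t * (q - p))) '' Icc 0 1)
  refine (isConnected_Icc zero_le_one).image _ ?_
  unfold P
  fun_prop

private lemma zero_seg (w q : ℝ) : (0 : E) ∈ (seg w 0 q : Set E) := by
  show (0 : E) ∈ ((fun t : ℝ => P w (0 + t * (q - 0))) '' Icc 0 1)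
  exact ⟨0, ⟨le_rfl, zero_le_one⟩, by simp [P]⟩

private lemma zero_cn (θ : ℝ) (A : K) : (0 : E) ∈ (cn θ A : Set E) := by
  show (0 : E) ∈ ((fun q : ℝ × E => (q.1 * max θ 0) • q.2) '' (Icc (0 : ℝ) 1 ×ˢ (A : Set E)))
  obtain ⟨a, ha⟩ := A.nonempty
  exact ⟨(0, a), ⟨⟨le_rfl, zero_le_one⟩, ha⟩, by simp⟩

private lemma cn_conn (θ : ℝ) (A : K) : IsConnected (cn θ A : Set E) := by
  refine ⟨⟨0, zero_cn θ A⟩, isPreconnected_of_forall (0 : E) fun y hy => ?_⟩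
  have hy' : y ∈ ((fun q : ℝ × E => (q.1 * max θ 0) • q.2) '' (Icc (0 : ℝ) 1 ×ˢ (A : Set E))) := hy
  obtain ⟨⟨t, a⟩, ⟨ht, ha⟩, rfl⟩ := hy'
  refine ⟨(fun s : ℝ => (s * max θ 0) • a) '' Icc 0 1, ?_, ⟨0, ⟨le_rfl, zero_le_one⟩, by simp⟩, ⟨t, ht, rfl⟩, ?_⟩
  · rintro _ ⟨s, hs, rfl⟩
    exact ⟨(s, a), ⟨hs, ha⟩, rfl⟩
  · refine isPreconnected_Icc.image _ ?_
    fun_prop

theorem main : Pool.Agent.Q148.HF.TaskConn := by
  intro hS A
  unfold rr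
  split_ifs with h1 h2
  · exact cn_conn 1 A
  · exact seg_conn _ _ _
  · rw [hS.2]
    exact (seg_conn _ _ _).union ⟨0, zero_seg _ _, zero_cn _ _⟩ (cn_conn _ _)

end Pool.Agent.Q148.HF.TConn
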