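import Pool.Agent.Q148.HF.Stmts

/-! TaskDC (helper135). -/

set_option autoImplicit false

namespace Pool.Agent.Q148.HF.TDC

open TopologicalSpace Metric Set Filter Topology Pool.Agent.Q148.HF

theorem main : Pool.Agent.Q148.HF.TaskDC := by
  intro hSup hZC hAB A hA
  have h1 := hSup (fun q : ℝ × E => q.1 * q.2.2 - q.2.1) (by fun_prop)
  have h2 : ContinuousAt (fun B : K => (zz B, B)) A := (hZC hSup hAB A hA).prodMk continuousAt_id
  exact ContinuousAt.comp (f := fun B : K => (zz B, B))
    (g := fun q : ℝ × K => sSup ((fun p : E => q.1 * p.2 - p.1) '' (q.2 : Set E)))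
    h1.continuousAt h2

end Pool.Agent.Q148.HF.TDC
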