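import Pool.Agent.Q148.HF.Stmts

set_option autoImplicit false

namespace Pool.Agent.Q148.HF.TFanC

open TopologicalSpace Metric Set Filter Topology Pool.Agent.Q148.HF

theorem fan_eq (Z : Set ℝ) : fan Z = (fun q : ℝ × ℝ => P q.1 q.2) '' (Z ×ˢ Icc (0 : ℝ) 1) := by
  ext p
  constructor
  · rintro ⟨z, hz, s, hs, rfl⟩
    exact ⟨(z, s), ⟨hz, hs⟩, rfl⟩
  · rintro ⟨⟨z, s⟩, ⟨hz, hs⟩, rfl⟩
    exact ⟨z, hz, s, hs, rfl⟩

theorem main : Pool.Agent.Q148.HF.TaskFanC := by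
  intro Z hZ
  refine ⟨?_, ?_, ?_⟩
  · rw [fan_eq]
    exact (hZ.cpt.prod isCompact_Icc).image (by unfold P; fun_prop)
  · obtain ⟨z, hz⟩ := hZ.ne
    exact ⟨P z 0, z, hz, 0, ⟨le_rfl, zero_le_one⟩, rfl⟩
  · refine isPreconnected_of_forall ((0, 0) : E) ?_
    rintro p ⟨z, hz, s, hs, rfl⟩
    refine ⟨(fun t : ℝ => P z t) '' Icc 0 1, ?_, ⟨0, ⟨le_rfl, zero_le_one⟩, by simp [P]⟩,
      ⟨s, hs, rfl⟩, ?_⟩
    · rintro _ ⟨t, ht, rfl⟩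
      exact ⟨z, hz, t, ht, rfl⟩
    · exact isPreconnected_Icc.image _ (by unfold P; fun_prop)

end Pool.Agent.Q148.HF.TFanC
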