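import Pool.Agent.Q148.HF.Stmts

set_option autoImplicit false

namespace Pool.Agent.Q148.HF.TFar

open Pool.Agent.Q148.HF
open TopologicalSpace Metric Set Filter Topology

theorem main : Pool.Agent.Q148.HF.TaskFar := by
  intro hS A ha hD
  have h1 : ¬ aa A ≤ 0 := not_le.2 ha
  have h2 : ¬ DD A ≤ aa A := by
    intro h
    linarith
  have h3 : 3 < DD A / aa A := by
    rw [lt_div_iff₀ ha]
    exact hD
  have h4 : max 0 (min 1 (DD A / aa A - 2)) = 1 := by
    rw [min_eq_left (by linarith), max_eq_right zero_le_one]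
  have h5 : min 1 (DD A / aa A - 1) = 1 := min_eq_left (by linarith)
  have h6 : rr A = seg (zz A) 0 0 ⊔ cn 1 A := by
    unfold rr
    rw [if_neg h1, if_neg h2, h4, h5, sub_self, zero_mul]
  rw [h6]
  apply SetLike.coe_injective
  rw [hS.2, union_eq_right]
  rintro p ⟨t, ht, rfl⟩
  obtain ⟨x, hx⟩ := A.nonempty
  refine ⟨(0, x), ⟨⟨le_refl _, zero_le_one⟩, hx⟩, ?_⟩
  simp [P]
  rfl

end Pool.Agent.Q148.HF.TFar
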