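import Pool.Agent.Q148.HF.Stmts

set_option autoImplicit false

namespace Pool.Agent.Q148.HF.TFixA

open TopologicalSpace Metric Set Filter Topology
open Pool.Agent.Q148.HF

theorem main : Pool.Agent.Q148.HF.TaskFixA := by
  intro hAtt Z hZ A hAf hAc hpos
  obtain ⟨⟨pa, hpa, hpa2⟩, ha, ⟨pb, hpb, hpb2⟩, hb, hz, ⟨pd, hpd, hpd2⟩, hd⟩ := hAtt A
  have h0 : ∀ p ∈ A, 0 < p.2 := fun p hp => lt_of_lt_of_le hpos (ha p hp)
  obtain ⟨⟨pz, hpz, hpz2⟩, hz2⟩ := hz h0
  -- the slope is constant
  have hcont : ContinuousOn (fun p : E => p.1 / p.2) (A : Set E) := by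
    apply ContinuousOn.div continuousOn_fst continuousOn_snd
    intro p hp
    exact (h0 p hp).ne'
  have hsub : (fun p : E => p.1 / p.2) '' (A : Set E) ⊆ Z := by
    rintro _ ⟨p, hp, rfl⟩
    obtain ⟨z, hzZ, s, hs, hps⟩ := hAf hp
    have h1 : 0 < p.2 := h0 p hp
    have h2 : p.1 / p.2 = z := by
      rw [hps] at h1 ⊢
      have h3 : (0 : ℝ) < s := h1
      show z * s / s = z
      field_simp
    show p.1 / p.2 ∈ Z
    rw [h2]
    exact hzZ
  have hss := hZ.td _ hsub (hAc.isPreconnected.image _ hcont)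
  have hslope : ∀ p ∈ A, p.1 = zz A * p.2 := by
    intro p hp
    have h1 : p.1 / p.2 = pz.1 / pz.2 := hss ⟨p, hp, rfl⟩ ⟨pz, hpz, rfl⟩
    rw [hpz2] at h1
    have h2 := h0 p hp
    rw [div_eq_iff h2.ne'] at h1
    exact h1
  have hDD : DD A = 0 := by
    rw [← hpd2, hslope pd hpd]
    ring
  have hrr : rr A = seg (zz A) (aa A - DD A) (bb A) := by
    unfold rr
    rw [if_neg (not_le.2 hpos), if_pos (by rw [hDD]; exact hpos.le)]
  rw [hrr, hDD, sub_zero]
  apply NonemptyCompacts.ext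
  show (fun t : ℝ => P (zz A) (aa A + t * (bb A - aa A))) '' Icc 0 1 = (A : Set E)
  have hsnd : IsPreconnected (Prod.snd '' (A : Set E)) :=
    hAc.isPreconnected.image _ continuous_snd.continuousOn
  have hIcc : Icc (aa A) (bb A) ⊆ Prod.snd '' (A : Set E) :=
    hsnd.Icc_subset ⟨pa, hpa, hpa2⟩ ⟨pb, hpb, hpb2⟩
  have hab : aa A ≤ bb A := by
    have := hb pa hpa
    rw [hpa2] at this
    exact this
  ext x
  constructor
  · rintro ⟨t, ht, rfl⟩
    have h1 : aa A + t * (bb A - aa A) ∈ Icc (aa A) (bb A) := by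
      constructor
      · nlinarith [ht.1]
      · nlinarith [ht.2]
    obtain ⟨p, hp, hp2⟩ := hIcc h1
    have h2 : P (zz A) (aa A + t * (bb A - aa A)) = p := by
      unfold P
      rw [← hp2]
      exact Prod.ext (hslope p hp).symm rfl
    show P (zz A) (aa A + t * (bb A - aa A)) ∈ (A : Set E)
    rw [h2]
    exact hp
  · intro hx
    have h1 := ha x hx
    have h2 := hb x hx
    rcases eq_or_lt_of_le hab with h | h
    · refine ⟨0, ⟨le_rfl, zero_le_one⟩, ?_⟩
      show P (zz A) (aa A + 0 * (bb A - aa A)) = x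
      have h3 : aa A + 0 * (bb A - aa A) = x.2 := by
        rw [← h] at h2
        linarith
      rw [h3]
      exact Prod.ext (hslope x hx).symm rfl
    · have h4 : 0 < bb A - aa A := by linarith
      refine ⟨(x.2 - aa A) / (bb A - aa A), ⟨div_nonneg (by linarith) h4.le, ?_⟩, ?_⟩
      · rw [div_le_one h4]
        linarith
      · show P (zz A) (aa A + (x.2 - aa A) / (bb A - aa A) * (bb A - aa A)) = x
        rw [div_mul_cancel₀ _ h4.ne']
        have h3 : aa A + (x.2 - aa A) = x.2 := by ring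
        rw [h3]
        exact Prod.ext (hslope x hx).symm rfl

end Pool.Agent.Q148.HF.TFixA
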