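import Pool.Agent.Q148.HF.Stmts

/-!
# Task FixB
-/

set_option autoImplicit false

namespace Pool.Agent.Q148.HF.TFixB

open TopologicalSpace Metric Set Filter Topology Pool.Agent.Q148.HF

theorem main : Pool.Agent.Q148.HF.TaskFixB := by
  intro hAtt hCl hBa Z hZ A hAf hconn ha
  obtain ⟨⟨p0, hp0, hp0a⟩, -⟩ := hAtt A
  obtain ⟨w0, hw0, s0, hs0, hp0e⟩ := hAf hp0
  have hs00 : s0 = 0 := by
    have h1 : p0.2 = s0 := by rw [hp0e]; rfl
    have h2 := hs0.1
    linarith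
  have hzero : ∀ w, P w 0 = ((0, 0) : E) := by intro w; simp [P]
  have h0 : ((0, 0) : E) ∈ (A : Set E) := by
    rw [hs00, hzero] at hp0e
    rw [← hp0e]; exact hp0
  have hrr : rr A = cn 1 A := by unfold rr; rw [if_pos ha]
  rw [hrr]
  apply SetLike.coe_injective
  apply Subset.antisymm
  · rintro _ ⟨⟨τ, x⟩, ⟨hτ, hx⟩, rfl⟩
    obtain ⟨z, hz, s, hs, hxe⟩ := hAf hx
    simp only at hτ hx hxe ⊢
    have hx2 : (τ * max 1 0) • x = P z (τ * s) := by
      rw [hxe]
      have : max (1 : ℝ) 0 = 1 := max_eq_left zero_le_one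
      rw [this, mul_one]
      unfold P
      ext
      · simp; ring
      · simp
    rw [hx2]
    by_cases hts : τ * s = 0
    · rw [hts, hzero]; exact h0
    have hcl : IsClosed (A : Set E) := A.isCompact.isClosed
    rw [← hcl.closure_eq, Metric.mem_closure_iff]
    intro ε hε
    obtain ⟨V, U, hV, hU, hVU, hzV, hVd⟩ := hBa Z hZ z hz ε hε
    obtain ⟨ρ, hρc, hρV, hρn⟩ := hCl Z hZ V hV (Or.inr ⟨U, hU, hVU⟩)
    have him : IsPreconnected (ρ '' (A : Set E)) :=
      (hconn.image ρ (hρc.mono hAf)).isPreconnected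
    have hm0 : (0 : ℝ) ∈ ρ '' (A : Set E) := by
      refine ⟨(0, 0), h0, ?_⟩
      have := hρV z hz hzV 0 le_rfl zero_le_one
      rwa [hzero] at this
    have hms : s ∈ ρ '' (A : Set E) := ⟨x, hx, by rw [hxe]; exact hρV z hz hzV s hs.1 hs.2⟩
    have hmem : τ * s ∈ ρ '' (A : Set E) := by
      apply him.Icc_subset hm0 hms
      exact ⟨mul_nonneg hτ.1 hs.1, by nlinarith [hτ.2, hs.1]⟩
    obtain ⟨y, hy, hye⟩ := hmem
    obtain ⟨w, hw, r, hr, hyw⟩ := hAf hy
    refine ⟨y, hy, ?_⟩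
    by_cases hwV : w ∈ V
    · have h1 : r = τ * s := by
        rw [← hye, hyw, hρV w hw hwV r hr.1 hr.2]
      have h2 := hVd w ⟨hwV, hw⟩
      rw [hyw, h1]
      unfold P
      rw [Prod.dist_eq]
      simp only [dist_self]
      rw [Real.dist_eq, max_lt_iff]
      refine ⟨?_, hε⟩
      have h3 : z * (τ * s) - w * (τ * s) = (z - w) * (τ * s) := by ring
      have h4 : 0 ≤ τ * s := mul_nonneg hτ.1 hs.1
      have h5 : τ * s ≤ 1 := by nlinarith [hτ.2, hs.1, hs.2, hτ.1]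
      rw [h3, abs_mul, abs_of_nonneg h4, abs_sub_comm]
      nlinarith [abs_nonneg (w - z)]
    · exfalso
      apply hts
      rw [← hye, hyw]
      exact hρn w hw hwV r hr.1 hr.2
  · intro x hx
    exact ⟨(1, x), ⟨⟨zero_le_one, le_refl _⟩, hx⟩, by simp⟩

end Pool.Agent.Q148.HF.TFixB
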