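import Pool.Agent.Q148.HF.Stmts

set_option autoImplicit false

namespace Pool.Agent.Q148.HF.TNLC

open TopologicalSpace Metric Set Filter Topology
open Pool.Agent.Q148.HF

theorem main : Pool.Agent.Q148.HF.TaskNLC := by
  intro hL
  have hmem : ∀ z ∈ Z0, P z 1 ∈ fan Z0 := fun z hz => ⟨z, hz, 1, ⟨zero_le_one, le_rfl⟩, rfl⟩
  have hZ : ∀ n : ℕ, (1 / ((n : ℝ) + 1)) ∈ Z0 := fun n => Or.inr ⟨n, rfl⟩
  have h0Z : (0 : ℝ) ∈ Z0 := Or.inl rfl
  let x0 : fan Z0 := ⟨P 0 1, hmem 0 h0Z⟩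
  let W : Set (fan Z0) := {p | 1 / 2 < (p : E).2}
  have hW : IsOpen W := isOpen_lt continuous_const (continuous_snd.comp continuous_subtype_val)
  have hxW : x0 ∈ W := by
    show (1 : ℝ) / 2 < (P 0 1).2
    unfold P
    norm_num
  have hVo : IsOpen (connectedComponentIn W x0) := hW.connectedComponentIn
  have hVc : IsPreconnected (connectedComponentIn W x0) := isPreconnected_connectedComponentIn
  have hVW : connectedComponentIn W x0 ⊆ W := connectedComponentIn_subset W x0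
  have hxV : x0 ∈ connectedComponentIn W x0 := mem_connectedComponentIn hxW
  have hy : Tendsto (fun n : ℕ => (⟨P (1 / ((n : ℝ) + 1)) 1, hmem _ (hZ n)⟩ : fan Z0)) atTop
      (𝓝 x0) := by
    rw [tendsto_subtype_rng]
    have h1 : Tendsto (fun n : ℕ => 1 / ((n : ℝ) + 1)) atTop (𝓝 0) :=
      tendsto_one_div_add_atTop_nhds_zero_nat
    have h2 : Tendsto (fun n : ℕ => ((1 / ((n : ℝ) + 1)) * 1, (1 : ℝ))) atTop (𝓝 (0 * 1, 1)) :=
      (h1.mul_const 1).prodMk_nhds tendsto_const_nhds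
    exact h2
  obtain ⟨n, hn⟩ := (hy.eventually (hVo.mem_nhds hxV)).exists
  let g : fan Z0 → ℝ := fun p => (p : E).1 / (p : E).2
  have hg : ContinuousOn g (connectedComponentIn W x0) := by
    apply ContinuousOn.div
    · exact (continuous_fst.comp continuous_subtype_val).continuousOn
    · exact (continuous_snd.comp continuous_subtype_val).continuousOn
    · intro p hp
      have h3 : (1 : ℝ) / 2 < (p : E).2 := hVW hp
      linarith
  have himg : IsPreconnected (g '' connectedComponentIn W x0) := hVc.image g hg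
  have h0 : (0 : ℝ) ∈ g '' connectedComponentIn W x0 := by
    refine ⟨x0, hxV, ?_⟩
    show (P 0 1).1 / (P 0 1).2 = 0
    unfold P
    simp
  have h1 : (1 / ((n : ℝ) + 1)) ∈ g '' connectedComponentIn W x0 := by
    refine ⟨_, hn, ?_⟩
    show (P (1 / ((n : ℝ) + 1)) 1).1 / (P (1 / ((n : ℝ) + 1)) 1).2 = 1 / ((n : ℝ) + 1)
    unfold P
    simp
  have hsub := himg.Icc_subset h0 h1
  have hn0 : (0 : ℝ) ≤ n := Nat.cast_nonneg n
  have hlt : 1 / ((n : ℝ) + 2) < 1 / ((n : ℝ) + 1) := by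
    apply one_div_lt_one_div_of_lt <;> linarith
  have hpos : 0 < 1 / ((n : ℝ) + 2) := by positivity
  obtain ⟨p, hpV, hpc⟩ := hsub (show (1 / ((n : ℝ) + 1) + 1 / ((n : ℝ) + 2)) / 2 ∈
    Icc (0 : ℝ) (1 / ((n : ℝ) + 1)) from ⟨by linarith, by linarith⟩)
  have hp2 : (1 : ℝ) / 2 < (p : E).2 := hVW hpV
  obtain ⟨z, hz, s, hs, hps⟩ := p.2
  have hgz : g p = z := by
    show (p : E).1 / (p : E).2 = z
    rw [hps]
    rw [hps] at hp2
    unfold P at hp2 ⊢
    simp only at hp2 ⊢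
    have : s ≠ 0 := by linarith
    field_simp
  rw [hgz] at hpc
  rcases hz with hz | ⟨k, hk⟩
  · rw [hz] at hpc; linarith
  · rw [hk] at hpc
    have hk0 : (0 : ℝ) ≤ k := Nat.cast_nonneg k
    have a1 : 1 / ((n : ℝ) + 2) < 1 / ((k : ℝ) + 1) := by linarith
    have a2 : 1 / ((k : ℝ) + 1) < 1 / ((n : ℝ) + 1) := by linarith
    have b1 := lt_of_one_div_lt_one_div (by linarith) a1
    have b2 := lt_of_one_div_lt_one_div (by linarith) a2
    have c1 : (k : ℝ) < (n : ℝ) + 1 := by linarith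
    have c2 : (n : ℝ) < (k : ℝ) := by linarith
    have d1 : k < n + 1 := by exact_mod_cast c1
    have d2 : n < k := by exact_mod_cast c2
    omega

end Pool.Agent.Q148.HF.TNLC
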