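import Pool.Agent.Q148.HF.Stmts

set_option autoImplicit false

namespace Pool.Agent.Q148.HF.TNear

open TopologicalSpace Metric Set Filter Topology Pool.Agent.Q148.HF

theorem mem_seg {w p q σ : ℝ} (h1 : p ≤ σ) (h2 : σ ≤ q) :
    P w σ ∈ ((seg w p q : K) : Set E) := by
  show P w σ ∈ (fun t : ℝ => P w (p + t * (q - p))) '' Icc 0 1
  rcases eq_or_lt_of_le (h1.trans h2) with h | h
  · refine ⟨0, by simp, ?_⟩
    have : σ = p := by linarith
    simp [this]
  · refine ⟨(σ - p) / (q - p), ⟨div_nonneg (by linarith) (by linarith),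
      (div_le_one (by linarith)).2 (by linarith)⟩, ?_⟩
    have hne : (q - p) ≠ 0 := (sub_pos.2 h).ne'
    show P w (p + (σ - p) / (q - p) * (q - p)) = P w σ
    rw [div_mul_cancel₀ _ hne]
    congr 1
    ring

theorem of_mem_seg {w p q : ℝ} {x : E} (hpq : p ≤ q) (h : x ∈ ((seg w p q : K) : Set E)) :
    ∃ σ, p ≤ σ ∧ σ ≤ q ∧ x = P w σ := by
  obtain ⟨t, ⟨ht0, ht1⟩, rfl⟩ := h
  exact ⟨p + t * (q - p), by nlinarith, by nlinarith, rfl⟩

theorem mem_cn {θ : ℝ} {A : K} {τ : ℝ} {x : E} (hθ : 0 ≤ θ) (h0 : 0 ≤ τ) (h1 : τ ≤ 1)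
    (hx : x ∈ (A : Set E)) : (τ * θ) • x ∈ ((cn θ A : K) : Set E) := by
  refine ⟨(τ, x), ⟨⟨h0, h1⟩, hx⟩, ?_⟩
  show (τ * max θ 0) • x = (τ * θ) • x
  rw [max_eq_left hθ]

theorem mem_cn1 {A : K} {τ : ℝ} {x : E} (h0 : 0 ≤ τ) (h1 : τ ≤ 1)
    (hx : x ∈ (A : Set E)) : τ • x ∈ ((cn 1 A : K) : Set E) := by
  have := mem_cn (θ := 1) zero_le_one h0 h1 hx
  rwa [mul_one] at this

theorem of_mem_cn {θ : ℝ} {A : K} {y : E} (h : y ∈ ((cn θ A : K) : Set E)) :
    ∃ (τ : ℝ) (x : E), 0 ≤ τ ∧ τ ≤ 1 ∧ x ∈ (A : Set E) ∧ y = (τ * max θ 0) • x := by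
  obtain ⟨⟨τ, x⟩, ⟨⟨h0, h1⟩, hx⟩, rfl⟩ := h
  exact ⟨τ, x, h0, h1, hx, rfl⟩

theorem main : Pool.Agent.Q148.HF.TaskNear := by
  intro hAtt hSup Z hZ A hA ha hD
  obtain ⟨-, haa, ⟨xb, hxb, hxb2⟩, hbb, hpos, ⟨xd, hxd, hxd2⟩, hDD⟩ := hAtt A
  have hp : ∀ p ∈ A, 0 < p.2 := fun p hp => ha.trans_le (haa p hp)
  obtain ⟨⟨xz, hxz, hxz2⟩, hzz⟩ := hpos hp
  unfold rr
  set a := aa A with hadef
  set b := bb A with hbdef
  set z := zz A with hzdef
  set D := DD A with hDdef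
  have hz01 : 0 ≤ z ∧ z ≤ 1 := by
    obtain ⟨w, hw, s, hs, e⟩ := hA hxz
    have hs0 : 0 < xz.2 := hp xz hxz
    have hw' := hZ.sub hw
    have hs1 : xz.2 = s := by rw [e]; rfl
    have hs2 : xz.1 = w * s := by rw [e]; rfl
    have : z = w := by
      rw [← hxz2, hs1, hs2]
      rw [hs1] at hs0
      field_simp
    rw [this]
    exact hw'
  have hle : ∀ p ∈ A, p.1 ≤ z * p.2 := fun p hp' => by
    have := hzz p hp'
    rwa [div_le_iff₀ (hp p hp')] at this
  have hD0 : 0 ≤ D := by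
    rw [← hxd2]
    linarith [hle xd hxd]
  have hb : a ≤ b := (haa xb hxb).trans_eq hxb2
  have hb0 : 0 < b := ha.trans_le hb
  have key : ∀ x ∈ A, ∀ τ : ℝ, 0 ≤ τ → τ ≤ 1 → dist (P z (τ * x.2)) (τ • x) ≤ D := by
    intro x hx τ h0 h1
    have e1 := hDD x hx
    have e2 := hle x hx
    rw [Prod.dist_eq, Real.dist_eq, Real.dist_eq]
    simp only [P, Prod.smul_fst, Prod.smul_snd, smul_eq_mul, sub_self, abs_zero]
    rw [max_le_iff]
    refine ⟨?_, hD0⟩
    rw [abs_le]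
    constructor
    · nlinarith
    · nlinarith
  have keyseg : ∀ σ, 0 ≤ σ → σ ≤ b → ∃ y ∈ ((cn 1 A : K) : Set E), dist (P z σ) y ≤ 6 * a := by
    intro σ h0 h1
    refine ⟨(σ / b) • xb, mem_cn1 (div_nonneg h0 hb0.le) ((div_le_one hb0).2 h1) hxb, ?_⟩
    have := key xb hxb (σ / b) (div_nonneg h0 hb0.le) ((div_le_one hb0).2 h1)
    rw [hxb2, div_mul_cancel₀ _ hb0.ne'] at this
    linarith
  have keydist : ∀ x ∈ A, ∀ τ σ : ℝ, 0 ≤ τ → τ ≤ 1 → |σ - τ * x.2| ≤ a →
      dist (τ • x) (P z σ) ≤ 6 * a := by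
    intro x hx τ σ h0 h1 h2
    have e1 := key x hx τ h0 h1
    have e2 : dist (P z (τ * x.2)) (P z σ) ≤ a := by
      rw [Prod.dist_eq, Real.dist_eq, Real.dist_eq]
      simp only [P]
      rw [max_le_iff]
      constructor
      · rw [← mul_sub, abs_mul, abs_of_nonneg hz01.1, abs_sub_comm]
        calc z * |σ - τ * x.2| ≤ 1 * a := by
              apply mul_le_mul hz01.2 h2 (abs_nonneg _) zero_le_one
          _ = a := one_mul _
      · rw [abs_sub_comm]
        exact h2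
    have e3 := dist_triangle_left (τ • x) (P z σ) (P z (τ * x.2))
    linarith
  have hx2b : ∀ x ∈ A, ∀ τ : ℝ, 0 ≤ τ → τ ≤ 1 → 0 ≤ τ * x.2 ∧ τ * x.2 ≤ b := by
    intro x hx τ h0 h1
    have e1 := hp x hx
    have e2 := hbb x hx
    constructor
    · positivity
    · nlinarith
  rw [if_neg (not_le.2 ha)]
  by_cases hDa : D ≤ a
  · rw [if_pos hDa]
    apply hausdorffDist_le_of_mem_dist (by positivity)
    · intro x hx
      obtain ⟨σ, h1, h2, rfl⟩ := of_mem_seg (by linarith) hx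
      exact keyseg σ (by linarith) h2
    · intro y hy
      obtain ⟨τ, x, h0, h1, hx, rfl⟩ := of_mem_cn hy
      rw [max_eq_left (zero_le_one), mul_one]
      obtain ⟨h3, h4⟩ := hx2b x hx τ h0 h1
      refine ⟨P z (max (τ * x.2) (a - D)), mem_seg (le_max_right _ _) (max_le h4 (by linarith)), ?_⟩
      apply keydist x hx τ _ h0 h1
      rw [abs_le]
      constructor
      · have := le_max_left (τ * x.2) (a - D)
        linarith
      · have : max (τ * x.2) (a - D) ≤ τ * x.2 + a := max_le (by linarith) (by linarith)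
        linarith
  · rw [if_neg hDa]
    push Not at hDa
    rw [hSup.2]
    have hl1 : 1 < D / a := by rwa [lt_div_iff₀ ha, one_mul]
    have hη0 : 0 ≤ max 0 (min 1 (D / a - 2)) := le_max_left _ _
    have hη1 : max 0 (min 1 (D / a - 2)) ≤ 1 := max_le zero_le_one (min_le_left _ _)
    set η := max 0 (min 1 (D / a - 2)) with hη
    have hθ0 : 0 ≤ min 1 (D / a - 1) := le_min zero_le_one (by linarith)
    have hθ1 : min 1 (D / a - 1) ≤ 1 := min_le_left _ _
    have hηb : (1 - η) * b ≤ b := by nlinarith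
    have hηb0 : 0 ≤ (1 - η) * b := mul_nonneg (by linarith) hb0.le
    apply hausdorffDist_le_of_mem_dist (by positivity)
    · rintro x (hx | hx)
      · obtain ⟨σ, h1, h2, rfl⟩ := of_mem_seg hηb0 hx
        exact keyseg σ h1 (h2.trans hηb)
      · obtain ⟨τ, y, h0, h1, hy, rfl⟩ := of_mem_cn hx
        refine ⟨(τ * max (min 1 (D / a - 1)) 0) • y, mem_cn1 ?_ ?_ hy, ?_⟩
        · rw [max_eq_left hθ0]
          exact mul_nonneg h0 hθ0
        · rw [max_eq_left hθ0]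
          nlinarith
        · rw [dist_self]
          positivity
    · intro y hy
      obtain ⟨τ, x, h0, h1, hx, rfl⟩ := of_mem_cn hy
      rw [max_eq_left (zero_le_one), mul_one]
      obtain ⟨h3, h4⟩ := hx2b x hx τ h0 h1
      rcases le_or_gt (D / a) 2 with h2 | h2
      · have hη2 : η = 0 := by
          rw [hη]
          apply max_eq_left
          exact (min_le_right _ _).trans (by linarith)
        refine ⟨P z (τ * x.2), Or.inl (mem_seg h3 (by rw [hη2]; linarith)), ?_⟩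
        apply keydist x hx τ _ h0 h1
        rw [sub_self, abs_zero]
        exact ha.le
      · have hθ2 : min 1 (D / a - 1) = 1 := min_eq_left (by linarith)
        refine ⟨τ • x, Or.inr ?_, ?_⟩
        · rw [hθ2]
          exact mem_cn1 h0 h1 hx
        · rw [dist_self]
          positivity

end Pool.Agent.Q148.HF.TNear
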