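import Mathlib
import Pool.Agent.Q148.HF.Stmts

/-!
# MP_85483e_gt: continuity of the retraction at the sets which do not contain the vertex
-/

set_option autoImplicit false

namespace Pool.Agent.Q148.HF.TPos

open TopologicalSpace Metric Set Filter Topology

theorem main : Pool.Agent.Q148.HF.TaskPos := by
  intro hAB hZC hDC hSG hSeg hCn hSup hAtt A hA
  obtain ⟨haa, hbb⟩ := hAB hSG
  have hpos : ∀ p ∈ A, 0 < p.2 := fun p hp => lt_of_lt_of_le hA ((hAtt A).2.1 p hp)
  have hzz : ContinuousAt zz A := hZC hSG hAB A hpos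
  have hDD : ContinuousAt DD A := hDC hSG hZC hAB A hpos
  have hrat : ContinuousAt (fun B => DD B / aa B) A := hDD.div haa.continuousAt hA.ne'
  have hm2 : ContinuousAt (fun B => min 1 (DD B / aa B - 2)) A :=
    Filter.Tendsto.min tendsto_const_nhds (hrat.sub continuousAt_const)
  have hM2 : ContinuousAt (fun B => max 0 (min 1 (DD B / aa B - 2))) A :=
    Filter.Tendsto.max tendsto_const_nhds hm2
  have hm1 : ContinuousAt (fun B => min 1 (DD B / aa B - 1)) A :=
    Filter.Tendsto.min tendsto_const_nhds (hrat.sub continuousAt_const)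
  have hf : ContinuousAt (fun B : K => seg (zz B) (aa B - DD B) (bb B)) A := by
    have h1 : ContinuousAt (fun B : K => (zz B, aa B - DD B, bb B)) A :=
      hzz.prodMk ((haa.continuousAt.sub hDD).prodMk hbb.continuousAt)
    exact ContinuousAt.comp (g := fun q : ℝ × ℝ × ℝ => seg q.1 q.2.1 q.2.2)
      (f := fun B : K => (zz B, aa B - DD B, bb B)) hSeg.continuousAt h1
  have hg : ContinuousAt (fun B : K =>
      seg (zz B) 0 ((1 - max 0 (min 1 (DD B / aa B - 2))) * bb B) ⊔
        cn (min 1 (DD B / aa B - 1)) B) A := by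
    have h1 : ContinuousAt (fun B : K =>
        (zz B, (0 : ℝ), (1 - max 0 (min 1 (DD B / aa B - 2))) * bb B)) A :=
      hzz.prodMk (continuousAt_const.prodMk
        ((continuousAt_const.sub hM2).mul hbb.continuousAt))
    have h2 : ContinuousAt (fun B : K => (min 1 (DD B / aa B - 1), B)) A :=
      hm1.prodMk continuousAt_id
    have h3 := ContinuousAt.comp (g := fun q : ℝ × ℝ × ℝ => seg q.1 q.2.1 q.2.2)
      (f := fun B : K => (zz B, (0 : ℝ), (1 - max 0 (min 1 (DD B / aa B - 2))) * bb B))
      hSeg.continuousAt h1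
    have h4 := ContinuousAt.comp (g := fun q : ℝ × K => cn q.1 q.2)
      (f := fun B : K => (min 1 (DD B / aa B - 1), B)) hCn.continuousAt h2
    exact ContinuousAt.comp (g := fun q : K × K => q.1 ⊔ q.2)
      (f := fun B : K => (seg (zz B) 0 ((1 - max 0 (min 1 (DD B / aa B - 2))) * bb B),
        cn (min 1 (DD B / aa B - 1)) B)) hSup.1.continuousAt (h3.prodMk h4)
  have hev : ∀ᶠ B in 𝓝 A, 0 < aa B := haa.continuousAt.eventually (lt_mem_nhds hA)
  have hEq : (fun B : K => if DD B ≤ aa B then seg (zz B) (aa B - DD B) (bb B)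
      else seg (zz B) 0 ((1 - max 0 (min 1 (DD B / aa B - 2))) * bb B) ⊔
        cn (min 1 (DD B / aa B - 1)) B) =ᶠ[𝓝 A] rr := by
    filter_upwards [hev] with B hB
    unfold rr
    rw [if_neg (not_le.mpr hB)]
  refine ContinuousAt.congr ?_ hEq
  rcases lt_trichotomy (DD A) (aa A) with h | h | h
  · have h1 : ∀ᶠ B in 𝓝 A, DD B < aa B := hDD.eventually_lt haa.continuousAt h
    refine hf.congr ?_
    filter_upwards [h1] with B hB
    rw [if_pos hB.le]
  · have hfg : seg (zz A) 0 ((1 - max 0 (min 1 (DD A / aa A - 2))) * bb A) ⊔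
        cn (min 1 (DD A / aa A - 1)) A = seg (zz A) (aa A - DD A) (bb A) := by
      rw [h, div_self hA.ne', sub_self, sub_self]
      have e1 : (1 - max (0 : ℝ) (min 1 (1 - 2))) * bb A = bb A := by
        have : max (0 : ℝ) (min 1 (1 - 2)) = 0 := by norm_num
        rw [this]
        ring
      have e2 : min (1 : ℝ) 0 = 0 := by norm_num
      rw [e1, e2]
      apply NonemptyCompacts.ext
      rw [hSup.2]
      apply Set.union_eq_left.mpr
      intro x hx
      have hx' : x ∈ (fun q : ℝ × E => (q.1 * max (0 : ℝ) 0) • q.2) '' (Icc (0 : ℝ) 1 ×ˢ (A : Set E)) := hx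
      obtain ⟨q, _, rfl⟩ := hx'
      have hgoal : (fun q : ℝ × E => (q.1 * max (0 : ℝ) 0) • q.2) q ∈
          (fun t : ℝ => P (zz A) (0 + t * (bb A - 0))) '' Icc 0 1 := by
        refine ⟨0, ⟨le_rfl, zero_le_one⟩, ?_⟩
        simp [P]
      exact hgoal
    have hA2 : ContinuousAt (fun B : K => if DD B ≤ aa B then seg (zz B) (aa B - DD B) (bb B)
      else seg (zz B) 0 ((1 - max 0 (min 1 (DD B / aa B - 2))) * bb B) ⊔
        cn (min 1 (DD B / aa B - 1)) B) A := by
      unfold ContinuousAt
      beta_reduce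
      rw [if_pos h.le]
      refine Filter.Tendsto.if' hf ?_
      have hg' := hg.tendsto
      rw [hfg] at hg'
      exact hg'
    exact hA2
  · have h1 : ∀ᶠ B in 𝓝 A, aa B < DD B := haa.continuousAt.eventually_lt hDD h
    refine hg.congr ?_
    filter_upwards [h1] with B hB
    rw [if_neg (not_le.mpr hB)]

end Pool.Agent.Q148.HF.TPos
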