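import Pool.Agent.Q148.HF.Stmts

/-!
# The segments of the legs depend continuously on the parameters
-/

set_option autoImplicit false

namespace Pool.Agent.Q148.HF.TSegC

open TopologicalSpace Metric Set Filter Topology Pool.Agent.Q148.HF

theorem main : Pool.Agent.Q148.HF.TaskSegC := by
  unfold TaskSegC
  rw [continuous_iff_continuousAt]
  intro q0
  rw [ContinuousAt, Metric.tendsto_nhds]
  intro ε hε
  let F : (ℝ × ℝ × ℝ) → ℝ → E := fun q t => P q.1 (q.2.1 + t * (q.2.2 - q.2.1))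
  have hF : Continuous (fun z : (ℝ × ℝ × ℝ) × ℝ => F z.1 z.2) := by
    show Continuous (fun z : (ℝ × ℝ × ℝ) × ℝ =>
      ((z.1.1 * (z.1.2.1 + z.2 * (z.1.2.2 - z.1.2.1)),
        z.1.2.1 + z.2 * (z.1.2.2 - z.1.2.1)) : ℝ × ℝ))
    fun_prop
  have hG : Continuous (fun z : (ℝ × ℝ × ℝ) × ℝ => dist (F z.1 z.2) (F q0 z.2)) :=
    hF.dist (hF.comp (continuous_const.prodMk continuous_snd))
  have h1 : ∀ᶠ q in 𝓝 q0, ∀ t ∈ Icc (0 : ℝ) 1, dist (F q t) (F q0 t) < ε / 2 := by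
    refine isCompact_Icc.eventually_forall_of_forall_eventually fun t ht => ?_
    have h2 : Tendsto (fun z : (ℝ × ℝ × ℝ) × ℝ => dist (F z.1 z.2) (F q0 z.2)) (𝓝 (q0, t))
        (𝓝 0) := by
      have h3 := hG.tendsto (q0, t)
      simp only [dist_self] at h3
      exact h3
    exact h2.eventually (Iio_mem_nhds (half_pos hε))
  filter_upwards [h1] with q hq
  have h3 : dist (seg q.1 q.2.1 q.2.2) (seg q0.1 q0.2.1 q0.2.2) ≤ ε / 2 := by
    rw [NonemptyCompacts.dist_eq]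
    refine hausdorffDist_le_of_mem_dist (half_pos hε).le ?_ ?_
    · rintro _ ⟨t, ht, rfl⟩
      exact ⟨_, ⟨t, ht, rfl⟩, (hq t ht).le⟩
    · rintro _ ⟨t, ht, rfl⟩
      refine ⟨_, ⟨t, ht, rfl⟩, ?_⟩
      rw [dist_comm]
      exact (hq t ht).le
  linarith

end Pool.Agent.Q148.HF.TSegC
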