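import Pool.Agent.Q148.HF.Stmts

set_option autoImplicit false

open TopologicalSpace Metric Set Filter Topology

namespace Pool.Agent.Q148.HF.TSub

open Pool.Agent.Q148.HF

private lemma cn_sub {Z : Set ℝ} {A : K} (hA : (A : Set E) ⊆ fan Z) {θ : ℝ} (hθ : θ ≤ 1) :
    (cn θ A : Set E) ⊆ fan Z := by
  intro p hp
  change p ∈ (fun q : ℝ × E => (q.1 * max θ 0) • q.2) '' (Icc (0 : ℝ) 1 ×ˢ (A : Set E)) at hp
  obtain ⟨⟨t, x⟩, ⟨ht, hx⟩, rfl⟩ := hp
  obtain ⟨z, hz, s, hs, rfl⟩ := hA hx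
  have h0 : 0 ≤ max θ 0 := le_max_right _ _
  have h1 : max θ 0 ≤ 1 := max_le hθ zero_le_one
  have ht0 : (0 : ℝ) ≤ t := ht.1
  have ht1 : t ≤ (1 : ℝ) := ht.2
  have k1 : t * max θ 0 ≤ 1 := mul_le_one₀ ht1 h0 h1
  have k0 : 0 ≤ t * max θ 0 := mul_nonneg ht0 h0
  refine ⟨z, hz, t * max θ 0 * s, ⟨mul_nonneg k0 hs.1, mul_le_one₀ k1 hs.1 hs.2⟩, ?_⟩
  unfold P
  refine Prod.ext ?_ ?_
  · change t * max θ 0 * (z * s) = z * (t * max θ 0 * s)
    ring
  · change t * max θ 0 * s = t * max θ 0 * s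
    rfl

private lemma seg_sub {Z : Set ℝ} {w p q : ℝ} (hw : w ∈ Z) (hp0 : 0 ≤ p) (hp1 : p ≤ 1) (hq0 : 0 ≤ q)
    (hq1 : q ≤ 1) : (seg w p q : Set E) ⊆ fan Z := by
  intro x hx
  change x ∈ (fun t : ℝ => P w (p + t * (q - p))) '' Icc 0 1 at hx
  obtain ⟨t, ht, rfl⟩ := hx
  refine ⟨w, hw, p + t * (q - p), ⟨?_, ?_⟩, rfl⟩
  · nlinarith [ht.1, ht.2, mul_nonneg ht.1 hq0, mul_nonneg (sub_nonneg.2 ht.2) hp0]
  · nlinarith [ht.1, ht.2, mul_nonneg ht.1 (sub_nonneg.2 hq1), mul_nonneg (sub_nonneg.2 ht.2) (sub_nonneg.2 hp1)]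

theorem main : Pool.Agent.Q148.HF.TaskSub := by
  intro hAtt hSup Z hZ A hA
  obtain ⟨⟨pa, hpa, hpa2⟩, hale, ⟨pb, hpb, hpb2⟩, hble, hzz, -, hD⟩ := hAtt A
  unfold rr
  by_cases ha : aa A ≤ 0
  · rw [if_pos ha]
    exact cn_sub hA le_rfl
  · rw [if_neg ha]
    push Not at ha
    have hpos : ∀ p ∈ A, 0 < p.2 := fun p hp => lt_of_lt_of_le ha (hale p hp)
    obtain ⟨⟨pz, hpz, hpz2⟩, -⟩ := hzz hpos
    have hzZ : zz A ∈ Z := by
      obtain ⟨z, hz, s, hs, he⟩ := hA hpz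
      have hs0 : 0 < s := by
        have := hpos pz hpz
        rw [he] at this
        exact this
      rw [← hpz2, he]
      change z * s / s ∈ Z
      rw [mul_div_cancel_right₀ _ hs0.ne']
      exact hz
    have hD0 : 0 ≤ DD A := by
      have h1 := hD pz hpz
      have h2 : zz A * pz.2 - pz.1 = 0 := by
        rw [← hpz2, div_mul_cancel₀ _ (hpos pz hpz).ne', sub_self]
      linarith
    have hb1 : bb A ≤ 1 := by
      obtain ⟨z, hz, s, hs, he⟩ := hA hpb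
      rw [← hpb2, he]
      exact hs.2
    have hab : aa A ≤ bb A := by
      have := hale pb hpb
      rwa [hpb2] at this
    by_cases hDa : DD A ≤ aa A
    · rw [if_pos hDa]
      exact seg_sub hzZ (by linarith) (by linarith) (by linarith) hb1
    · rw [if_neg hDa, hSup.2]
      refine union_subset ?_ (cn_sub hA (min_le_left _ _))
      have hη0 : 0 ≤ max 0 (min 1 (DD A / aa A - 2)) := le_max_left _ _
      have hη1 : max 0 (min 1 (DD A / aa A - 2)) ≤ 1 := max_le zero_le_one (min_le_left _ _)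
      refine seg_sub hzZ le_rfl zero_le_one (mul_nonneg (by linarith) (by linarith)) ?_
      exact mul_le_one₀ (by linarith) (by linarith) hb1

end Pool.Agent.Q148.HF.TSub
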