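import Pool.Agent.Q148.HF.Stmts

set_option autoImplicit false

namespace Pool.Agent.Q148.HF.TSupC

open TopologicalSpace

theorem main : Pool.Agent.Q148.HF.TaskSupC :=
  ⟨NonemptyCompacts.lipschitz_sup.continuous, fun A B => NonemptyCompacts.coe_sup A B⟩

end Pool.Agent.Q148.HF.TSupC
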