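import Pool.Agent.Q148.HF.Stmts

set_option autoImplicit false

namespace Pool.Agent.Q148.HF.TSupG

open TopologicalSpace Metric Set Filter Topology Pool.Agent.Q148.HF

theorem main : Pool.Agent.Q148.HF.TaskSupG := by
  intro h hh
  rw [Metric.continuous_iff]
  rintro ⟨w0, A⟩ ε hε
  have hc : IsCompact (({w0} : Set ℝ) ×ˢ (A : Set E)) := isCompact_singleton.prod A.isCompact
  have hU := hc.uniformContinuousAt_of_continuousAt h (fun a _ => hh.continuousAt)
    (Metric.dist_mem_uniformity (half_pos hε))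
  obtain ⟨δ, hδ, hD⟩ := Metric.mem_uniformity_dist.1 hU
  refine ⟨δ, hδ, ?_⟩
  rintro ⟨w, B⟩ hwB
  rw [Prod.dist_eq, max_lt_iff] at hwB
  obtain ⟨hw, hB⟩ := hwB
  simp only at hw hB
  rw [NonemptyCompacts.dist_eq] at hB
  have fin : hausdorffEDist (B : Set E) (A : Set E) ≠ ⊤ :=
    hausdorffEDist_ne_top_of_nonempty_of_bounded B.nonempty A.nonempty
      B.isCompact.isBounded A.isCompact.isBounded
  have key : ∀ p0 ∈ A, ∀ p ∈ B, dist p p0 < δ → |h (w, p) - h (w0, p0)| < ε / 2 := by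
    intro p0 hp0 p _ hd
    have h1 := @hD (w0, p0) (w, p) (by
      rw [Prod.dist_eq, max_lt_iff]
      exact ⟨by rw [dist_comm]; exact hw, by rw [dist_comm]; exact hd⟩)
      ⟨rfl, hp0⟩
    have h2 : dist (h (w0, p0)) (h (w, p)) < ε / 2 := h1
    rw [dist_comm, Real.dist_eq] at h2
    exact h2
  have bA : BddAbove ((fun p => h (w0, p)) '' (A : Set E)) :=
    (A.isCompact.image (by fun_prop)).bddAbove
  have bB : BddAbove ((fun p => h (w, p)) '' (B : Set E)) :=
    (B.isCompact.image (by fun_prop)).bddAbove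
  have h1 : sSup ((fun p => h (w, p)) '' (B : Set E)) ≤
      sSup ((fun p => h (w0, p)) '' (A : Set E)) + ε / 2 := by
    apply csSup_le (B.nonempty.image _)
    rintro _ ⟨p, hp, rfl⟩
    obtain ⟨p0, hp0, hd⟩ := exists_dist_lt_of_hausdorffDist_lt hp hB fin
    have h3 := (abs_lt.1 (key p0 hp0 p hp hd)).2
    have h4 := le_csSup bA ⟨p0, hp0, rfl⟩
    simp only at h4 ⊢
    linarith
  have h2 : sSup ((fun p => h (w0, p)) '' (A : Set E)) ≤
      sSup ((fun p => h (w, p)) '' (B : Set E)) + ε / 2 := by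
    apply csSup_le (A.nonempty.image _)
    rintro _ ⟨p0, hp0, rfl⟩
    obtain ⟨p, hp, hd⟩ := exists_dist_lt_of_hausdorffDist_lt' hp0 hB fin
    have h3 := (abs_lt.1 (key p0 hp0 p hp hd)).1
    have h4 := le_csSup bB ⟨p, hp, rfl⟩
    simp only at h4 ⊢
    linarith
  rw [Real.dist_eq, abs_lt]
  constructor <;> simp only <;> linarith

end Pool.Agent.Q148.HF.TSupG
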