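import Pool.Agent.Q148.HF.Stmts

set_option autoImplicit false

namespace Pool.Agent.Q148.HF.TZ0

open TopologicalSpace Metric Set Filter Topology Pool.Agent.Q148.HF

noncomputable def u (n : ℕ) : ℝ := 1 / ((n : ℝ) + 1)

lemma tendsto_u : Tendsto u atTop (𝓝 0) := tendsto_one_div_add_atTop_nhds_zero_nat

lemma u_pos (n : ℕ) : 0 < u n := by unfold u; positivity

lemma Z0_eq : Z0 = insert 0 (range u) := by
  ext x
  constructor
  · rintro (h | ⟨n, h⟩)
    · exact Or.inl h
    · exact Or.inr ⟨n, h.symm⟩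
  · rintro (h | ⟨n, h⟩)
    · exact Or.inl h
    · exact Or.inr ⟨n, h.symm⟩

lemma cpt : IsCompact Z0 := by
  rw [Z0_eq]
  exact tendsto_u.isCompact_insert_range

theorem main : Pool.Agent.Q148.HF.TaskZ0 := by
  refine ⟨⟨cpt, ⟨0, Or.inl rfl⟩, ?_, ?_⟩, ?_⟩
  · rintro x (h | ⟨n, h⟩)
    · rw [h]; exact ⟨le_rfl, zero_le_one⟩
    · rw [h]
      refine ⟨by positivity, ?_⟩
      rw [div_le_one (by positivity)]
      have : (0 : ℝ) ≤ n := Nat.cast_nonneg n
      linarith
  · refine Set.Countable.isTotallyDisconnected ?_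
    rw [Z0_eq]
    exact (countable_range u).insert 0
  · intro x
    constructor
    · intro h
      by_contra hx
      have hmem : x ∈ Z0 := by
        have h1 : x ∈ closure Z0 := mem_closure_iff_clusterPt.2 h.clusterPt
        rwa [cpt.isClosed.closure_eq] at h1
      have hpos : 0 < x := by
        rcases hmem with h0 | ⟨n, h0⟩
        · exact absurd h0 hx
        · rw [h0]; positivity
      have h2 : AccPt x (𝓟 (Ioi (x / 2) ∩ Z0)) :=
        h.nhds_inter (Ioi_mem_nhds (by linarith))
      have h3 : (Ioi (x / 2) ∩ Z0).Infinite := Set.Infinite.of_accPt h2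
      apply h3
      obtain ⟨N, hN⟩ := (tendsto_u.eventually (gt_mem_nhds (show (0 : ℝ) < x / 2 by linarith))).exists_forall_of_atTop
      refine ((Finset.range N).finite_toSet.image u).subset ?_
      rintro y ⟨hy, hyZ⟩
      have hy' : x / 2 < y := hy
      rcases hyZ with h0 | ⟨n, h0⟩
      · exfalso; rw [h0] at hy'; linarith
      · refine ⟨n, ?_, h0.symm⟩
        rw [Finset.mem_coe, Finset.mem_range]
        by_contra hn
        have h4 : u n < x / 2 := hN n (by omega)
        have h5 : y = u n := h0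
        rw [h5] at hy'
        linarith
    · rintro rfl
      rw [accPt_iff_nhds]
      intro U hU
      obtain ⟨n, hn⟩ := (tendsto_u.eventually hU).exists
      exact ⟨u n, ⟨hn, Or.inr ⟨n, rfl⟩⟩, (u_pos n).ne'⟩

end Pool.Agent.Q148.HF.TZ0
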