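import Pool.Agent.Q148.HF.Stmts

set_option autoImplicit false
set_option linter.all false

namespace Pool.Agent.Q148.HF.TZC

open TopologicalSpace Metric Set Filter Topology Pool.Agent.Q148.HF

theorem main : Pool.Agent.Q148.HF.TaskZC := by
  intro hS hAB A hA
  obtain ⟨haa, -⟩ := hAB hS
  have hcpt : IsCompact (Prod.snd '' (A : Set E)) := A.isCompact.image continuous_snd
  have hne : (Prod.snd '' (A : Set E)).Nonempty := A.nonempty.image _
  have hpos : 0 < aa A := by
    obtain ⟨p, hp, hpe⟩ := hcpt.sInf_mem hne
    unfold aa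
    rw [← hpe]
    exact hA p hp
  set c : ℝ := aa A / 2 with hc
  have hc0 : 0 < c := by positivity
  have hcl : c < aa A := by rw [hc]; linarith
  have hh : Continuous (fun q : ℝ × E => q.2.1 / max c q.2.2) := by
    refine Continuous.div (by fun_prop) (by fun_prop) fun q => ?_
    exact (lt_of_lt_of_le hc0 (le_max_left _ _)).ne'
  have hF := hS _ hh
  have hG : Continuous (fun B : K => sSup ((fun p : E => p.1 / max c p.2) '' (B : Set E))) :=
    hF.comp (f := fun B : K => ((0 : ℝ), B)) (by fun_prop)
  have hev : ∀ᶠ B in 𝓝 A, c < aa B := haa.continuousAt.eventually (lt_mem_nhds hcl)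
  refine ContinuousAt.congr hG.continuousAt ?_
  filter_upwards [hev] with B hB
  show sSup ((fun p : E => p.1 / max c p.2) '' (B : Set E)) = zz B
  unfold zz
  congr 1
  refine Set.image_congr fun p hp => ?_
  have h1 : aa B ≤ p.2 := by
    unfold aa
    exact csInf_le (B.isCompact.image continuous_snd).bddBelow ⟨p, hp, rfl⟩
  rw [max_eq_right (hB.le.trans h1)]

end Pool.Agent.Q148.HF.TZC
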