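import Pool.Agent.Q148.HF.Stmts

namespace Pool.Agent.Q148.HF.TZero

open Pool.Agent.Q148.HF TopologicalSpace Metric Set Filter Topology

theorem main (hG : Pool.Agent.Q148.HF.TaskSupG) : Pool.Agent.Q148.HF.TaskZero := by
  intro hAB hCn hAtt hSup hNear hFar Z hZ A hA hA0
  obtain ⟨haa, -⟩ := hAB hG
  have hrA : rr A = cn 1 A := by rw [rr, if_pos hA0]
  have key : ∀ B : K, (B : Set E) ⊆ fan Z → dist (rr B) (cn 1 B) ≤ 6 * max (aa B) 0 := by
    intro B hB
    rcases le_or_gt (aa B) 0 with h | h
    · rw [rr, if_pos h, dist_self]; positivity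
    · rcases le_or_gt (DD B) (3 * aa B) with h1 | h1
      · rw [NonemptyCompacts.dist_eq, max_eq_left h.le]
        exact hNear hAtt hSup Z hZ B hB h h1
      · rw [hFar hSup B h h1, dist_self]; positivity
  have hcn : Continuous (fun B : K => cn 1 B) :=
    hCn.comp (Continuous.prodMk continuous_const continuous_id)
  unfold ContinuousWithinAt
  rw [hrA, tendsto_iff_dist_tendsto_zero]
  have hlim : Tendsto (fun B : K => 6 * max (aa B) 0 + dist (cn 1 B) (cn 1 A))
      (𝓝[{B : K | (B : Set E) ⊆ fan Z}] A) (𝓝 0) := by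
    have h1 : Continuous fun B : K => 6 * max (aa B) 0 + dist (cn 1 B) (cn 1 A) :=
      (continuous_const.mul (haa.max continuous_const)).add (hcn.dist continuous_const)
    have h2 := h1.tendsto A
    rw [max_eq_right hA0, dist_self, mul_zero, add_zero] at h2
    exact h2.mono_left nhdsWithin_le_nhds
  refine squeeze_zero' (Eventually.of_forall fun _ => dist_nonneg) ?_ hlim
  filter_upwards [self_mem_nhdsWithin] with B hB
  have h3 := dist_triangle (rr B) (cn 1 B) (cn 1 A)
  have h4 := key B hB
  linarith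

end Pool.Agent.Q148.HF.TZero
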